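import Pool.Agent.J4H41.SV.Cmalg

/-!
# Project SV: invariance of Cohen-Macaulayness, the zero locus of `J_T`
-/

open RingTheory.Sequence

noncomputable section

namespace Pool.Agent.J4H41.SV

open Pool.Agent.J4H14.SV

/-- Cohen-Macaulayness is invariant under ring isomorphisms. -/
theorem isCM_of_ringEquiv {R S : Type} [CommRing R] [CommRing S] (e : R ≃+* S)
    (h : IsCMLocalRing R) : IsCMLocalRing S := by
  obtain ⟨rs, hrs, hd⟩ := h
  refine ⟨rs.map e, ?_, ?_⟩
  · refine (AddEquiv.isRegular_congr (e := e.toAddEquiv) ?_).1 hrs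
    rw [List.forall₂_map_right_iff, List.forall₂_same]
    intro r hr x
    simp [smul_eq_mul]
  · rw [List.length_map, hd]
    exact ringKrullDim_eq_of_ringEquiv e

lemma isPrime_of_good {I : Ideal D4} {ψ : D4 →ₐ[ℂ] R2} (h : Good I ψ) : I.IsPrime := by
  have : I = RingHom.ker ψ := by
    ext x
    rw [RingHom.mem_ker]
    exact (h.2 x).symm
  rw [this]
  exact RingHom.ker_isPrime ψ

lemma isPrime_pI {F : Finset (Fin 4)} (hF : F ∈ S3) : (pI F).IsPrime := by
  simp only [S3, Finset.mem_insert, Finset.mem_singleton] at hF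
  rcases hF with rfl | rfl | rfl
  · exact isPrime_of_good good01
  · exact isPrime_of_good good12
  · exact isPrime_of_good good23

/-- `J_T` is radical. -/
theorem isRadical_JT (T : Finset (Fin 4)) : (JT T).IsRadical := by
  intro x hx
  obtain ⟨n, hn⟩ := hx
  simp only [JT, Submodule.mem_iInf, Finset.mem_filter] at hn ⊢
  intro F hF
  have := isPrime_pI hF.1
  exact this.mem_of_pow_mem n (hn F hF)

lemma pI_le_iff (F : Finset (Fin 4)) (q : Ideal D4) :
    pI F ≤ q ↔ ∀ k, k ∉ F → MvPolynomial.X k ∈ q := by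
  rw [pI, Ideal.span_le]
  constructor
  · intro h k hk
    exact h ⟨k, hk, rfl⟩
  · rintro h _ ⟨k, hk, rfl⟩
    exact h k hk

/-- The primes containing `J_T`. -/
theorem JT_le_iff (T : Finset (Fin 4)) (q : Ideal D4) [hq : q.IsPrime] :
    JT T ≤ q ↔ ∃ F ∈ S3, T ⊆ F ∧ ∀ k, k ∉ F → MvPolynomial.X k ∈ q := by
  constructor
  · intro h
    rw [JT, ← Finset.inf_eq_iInf, hq.inf_le'] at h
    obtain ⟨F, hF, hle⟩ := h
    rw [Finset.mem_filter] at hF
    exact ⟨F, hF.1, hF.2, (pI_le_iff F q).1 hle⟩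
  · rintro ⟨F, hF, hT, h⟩
    rw [← pI_le_iff] at h
    refine le_trans ?_ h
    rw [JT]
    exact iInf₂_le F (Finset.mem_filter.2 ⟨hF, hT⟩)

/-- The zero locus of `J_T`. -/
theorem zeroLocus_JT (T : Finset (Fin 4)) :
    PrimeSpectrum.zeroLocus (JT T : Set D4) =
      {q | ∃ F ∈ S3, T ⊆ F ∧ ∀ k, k ∉ F → MvPolynomial.X k ∈ q.asIdeal} := by
  ext q
  rw [PrimeSpectrum.mem_zeroLocus, SetLike.coe_subset_coe, Set.mem_ofPred_eq]
  exact JT_le_iff T q.asIdeal

/-- A radical ideal with the zero locus of `J_T` is `J_T`. -/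
theorem eq_JT (T : Finset (Fin 4)) {I : Ideal D4} (hI : I.IsRadical)
    (h : PrimeSpectrum.zeroLocus (I : Set D4) =
      {q | ∃ F ∈ S3, T ⊆ F ∧ ∀ k, k ∉ F → MvPolynomial.X k ∈ q.asIdeal}) : I = JT T := by
  rw [← zeroLocus_JT, PrimeSpectrum.zeroLocus_eq_iff, hI.radical, (isRadical_JT T).radical] at h
  exact h

end Pool.Agent.J4H41.SV
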