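import Pool.Agent.J4H14.SV.Stm

/-!
# Job CMALG of project SV: seven small Stanley-Reisner rings are Cohen-Macaulay

A finite flat algebra `B` over a Noetherian UFD `R` of dimension at most two has Cohen-Macaulay
local rings: every prime of `R` is minimal over a weakly regular sequence (of length at most two).
-/

open RingTheory.Sequence
open scoped Pointwise

noncomputable section

namespace Pool.Agent.J4H41.SV

open Pool.Agent.J4H14.SV

/-- Every prime ideal of a UFD of dimension at most two is minimal over a weakly regular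
sequence. -/
lemma exists_weaklyRegular {R : Type*} [CommRing R] [IsDomain R] [UniqueFactorizationMonoid R]
    (hdim : ringKrullDim R ≤ 2) (p : Ideal R) [hp : p.IsPrime] :
    ∃ rs : List R, IsWeaklyRegular R rs ∧ p ∈ (Ideal.ofList rs).minimalPrimes := by
  by_cases h0 : p = ⊥
  · refine ⟨[], IsWeaklyRegular.nil R R, ?_⟩
    subst h0
    rw [Ideal.ofList_nil, Ideal.minimalPrimes_eq_subsingleton_self]
    rfl
  obtain ⟨x, hxp, hx⟩ := hp.exists_mem_prime_of_ne_bot h0
  have hxr : IsSMulRegular R x := by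
    intro a b hab
    exact mul_left_cancel₀ hx.ne_zero hab
  have hxI : (Ideal.span {x}).IsPrime := (Ideal.span_singleton_prime hx.ne_zero).2 hx
  by_cases h1 : p = Ideal.span {x}
  · refine ⟨[x], ?_, ?_⟩
    · rw [isWeaklyRegular_singleton_iff]
      exact hxr
    · rw [Ideal.ofList_singleton, ← h1, Ideal.minimalPrimes_eq_subsingleton_self]
      rfl
  have hxle : Ideal.span {x} ≤ p := (Ideal.span_singleton_le_iff_mem p).2 hxp
  obtain ⟨y, hyp, hyx⟩ := SetLike.exists_of_lt (lt_of_le_of_ne hxle (Ne.symm h1))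
  refine ⟨[x, y], ?_, ?_⟩
  · rw [isWeaklyRegular_cons_iff, isWeaklyRegular_singleton_iff]
    refine ⟨hxr, ?_⟩
    rw [isSMulRegular_quotient_iff_mem_of_smul_mem]
    have hmem : ∀ z : R, z ∈ (x • (⊤ : Submodule R R)) ↔ z ∈ Ideal.span {x} := by
      intro z
      rw [Submodule.mem_smul_pointwise_iff_exists, Ideal.mem_span_singleton']
      constructor
      · rintro ⟨b, -, hb⟩
        exact ⟨b, by rw [← hb, smul_eq_mul, mul_comm]⟩
      · rintro ⟨b, hb⟩
        exact ⟨b, trivial, by rw [← hb, smul_eq_mul, mul_comm]⟩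
    intro z hz
    rw [hmem] at hz ⊢
    rw [smul_eq_mul] at hz
    exact (hxI.mem_or_mem hz).resolve_left hyx
  · have hle : Ideal.ofList [x, y] ≤ p := by
      rw [Ideal.ofList_cons, Ideal.ofList_singleton]
      exact sup_le hxle ((Ideal.span_singleton_le_iff_mem p).2 hyp)
    refine ⟨⟨hp, hle⟩, ?_⟩
    rintro r ⟨hr, hrle⟩ hrp
    by_contra hnot
    have hlt3 : r < p := lt_of_le_of_ne hrp (fun h => hnot (h ▸ le_refl _))
    have hxr' : Ideal.span {x} < r := by
      refine lt_of_le_of_ne (le_trans ?_ hrle) ?_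
      · rw [Ideal.ofList_cons]
        exact le_sup_left
      · intro h
        apply hyx
        rw [h]
        apply hrle
        rw [Ideal.ofList_cons, Ideal.ofList_singleton]
        exact (le_sup_right : _ ≤ Ideal.span {x} ⊔ Ideal.span {y}) (Ideal.mem_span_singleton_self y)
    have hbot : (⊥ : Ideal R) < Ideal.span {x} := by
      rw [bot_lt_iff_ne_bot]
      intro h
      rw [Ideal.span_singleton_eq_bot] at h
      exact hx.ne_zero h
    have a1 := Ideal.height_add_one_le_of_lt_of_isPrime hbot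
    have a2 := Ideal.height_add_one_le_of_lt_of_isPrime hxr'
    have a3 := Ideal.height_add_one_le_of_lt_of_isPrime hlt3
    have a4 : (p.height : WithBot ℕ∞) ≤ 2 :=
      (Ideal.height_le_ringKrullDim_of_ne_top hp.ne_top).trans hdim
    have a5 : p.height ≤ 2 := WithBot.coe_le_coe.1 a4
    have a6 : (1 : ℕ∞) + 1 + 1 ≤ p.height := by
      calc (1 : ℕ∞) + 1 + 1 ≤ (Ideal.span {x}).height + 1 + 1 := by
            gcongr
            exact le_trans (by simp) a1
        _ ≤ r.height + 1 := by gcongr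
        _ ≤ p.height := a3
    have a7 : (1 : ℕ∞) + 1 + 1 ≤ 2 := a6.trans a5
    exact absurd a7 (by decide)

/-- A finite flat algebra over a Noetherian UFD of dimension at most two has Cohen-Macaulay local
rings. -/
theorem isCM_of_flat_finite {R B : Type} [CommRing R] [IsDomain R] [UniqueFactorizationMonoid R]
    [IsNoetherianRing R] (hdim : ringKrullDim R ≤ 2) [CommRing B] [Algebra R B]
    [Module.Finite R B] [Module.Flat R B] (q : Ideal B) [hq : q.IsPrime] :
    IsCMLocalRing (Localization.AtPrime q) := by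
  obtain ⟨rs, hrs, hp⟩ := exists_weaklyRegular hdim (q.comap (algebraMap R B))
  have hB : IsWeaklyRegular B (rs.map (algebraMap R B)) := hrs.of_flat
  have hofle : Ideal.ofList (rs.map (algebraMap R B)) ≤ q := by
    rw [← Ideal.map_ofList, Ideal.map_le_iff_le_comap]
    exact hp.1.2
  have hmem : ∀ r ∈ rs.map (algebraMap R B), r ∈ q := fun r hr =>
    hofle (Ideal.subset_span hr)
  have hreg := hB.isRegular_of_isLocalization_of_mem (Localization.AtPrime q) q hmem
  have : IsNoetherianRing B := IsNoetherianRing.of_finite R B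
  refine ⟨_, hreg, ?_⟩
  rw [← ringKrullDim_add_length_eq_ringKrullDim_of_isRegular _ hreg]
  set A := Localization.AtPrime q
  set I : Ideal A := Ideal.ofList ((rs.map (algebraMap R B)).map (algebraMap B A)) with hI
  have hqc : (IsLocalRing.maximalIdeal A).comap (algebraMap B A) = q :=
    Localization.AtPrime.under_maximalIdeal
  have hIle : I ≤ IsLocalRing.maximalIdeal A := by
    rw [hI, ← Ideal.map_ofList, Ideal.map_le_iff_le_comap, hqc]
    exact hofle
  have : Nontrivial (A ⧸ I) := Ideal.Quotient.nontrivial_iff.2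
    (fun h => IsLocalRing.maximalIdeal.isMaximal A |>.ne_top (top_le_iff.1 (h ▸ hIle)))
  have h0 : ringKrullDim (A ⧸ I) = 0 := by
    rw [← ringKrullDimZero_iff_ringKrullDim_eq_zero,
      Ideal.krullDimLE_zero_quotient_iff_forall_minimalPrimes_isMaximal]
    intro J hJ
    have hJp : J.IsPrime := hJ.1.1
    have hJle : J ≤ IsLocalRing.maximalIdeal A := IsLocalRing.le_maximalIdeal hJp.ne_top
    have hQq : J.comap (algebraMap B A) ≤ q := by
      have := Ideal.comap_mono (f := algebraMap B A) hJle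
      rwa [hqc] at this
    have hQI : Ideal.ofList (rs.map (algebraMap R B)) ≤ J.comap (algebraMap B A) := by
      rw [← Ideal.map_le_iff_le_comap, Ideal.map_ofList]
      exact hJ.1.2
    have hQ2 : Ideal.ofList rs ≤ (J.comap (algebraMap B A)).comap (algebraMap R B) := by
      rw [← Ideal.map_le_iff_le_comap, Ideal.map_ofList]
      exact hQI
    have hEq : J.comap (algebraMap B A) = q := by
      by_contra hne
      have hlt := Ideal.IsIntegral.comap_lt_comap (R := R) (lt_of_le_of_ne hQq hne)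
      exact absurd (hp.2 ⟨inferInstance, hQ2⟩ hlt.le) (not_le_of_gt hlt)
    have : J = IsLocalRing.maximalIdeal A := by
      have h1 : (J.comap (algebraMap B A)).map (algebraMap B A) = J :=
        IsLocalization.map_under q.primeCompl A J
      rw [← h1, hEq, Localization.AtPrime.map_eq_maximalIdeal]
    rw [this]
    exact IsLocalRing.maximalIdeal.isMaximal A
  rw [h0, zero_add]

/-- The polynomial ring in two variables. -/
abbrev R2 : Type := MvPolynomial (Fin 2) ℂ

/-- `ℂ[θ₀, θ₁] → ℂ[t₀, t₁, t₂, t₃]`, `θ₀ ↦ t₁ + t₂`, `θ₁ ↦ t₀ + t₁ + t₃`. -/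
def phi : R2 →ₐ[ℂ] D4 :=
  MvPolynomial.aeval ![MvPolynomial.X 1 + MvPolynomial.X 2,
    MvPolynomial.X 0 + MvPolynomial.X 1 + MvPolynomial.X 3]

lemma phi_zero : phi (MvPolynomial.X 0) = MvPolynomial.X 1 + MvPolynomial.X 2 := by
  simp [phi]

lemma phi_one :
    phi (MvPolynomial.X 1) = MvPolynomial.X 0 + MvPolynomial.X 1 + MvPolynomial.X 3 := by
  simp [phi]

/-- `ℂ[t]` as an algebra over `ℂ[θ]`. -/
@[implicit_reducible] def alg : Algebra R2 D4 := phi.toRingHom.toAlgebra

attribute [local instance] alg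

lemma algebraMap_mk (I : Ideal D4) (r : R2) :
    algebraMap R2 (D4 ⧸ I) r = Ideal.Quotient.mk I (phi r) := rfl

lemma smul_mk (I : Ideal D4) (r : R2) (x : D4) :
    r • (Ideal.Quotient.mk I x) = Ideal.Quotient.mk I (phi r * x) := rfl

/-- Finite and free over `ℂ[θ]`. -/
def FF (I : Ideal D4) : Prop := Module.Finite R2 (D4 ⧸ I) ∧ Module.Free R2 (D4 ⧸ I)

/-- `ψ : ℂ[t] → ℂ[θ]` is a retraction of `phi` with kernel `I`. -/
def Good (I : Ideal D4) (ψ : D4 →ₐ[ℂ] R2) : Prop :=
  (∀ r, ψ (phi r) = r) ∧ ∀ x, ψ x = 0 ↔ x ∈ I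

lemma Good.ff {I : Ideal D4} {ψ : D4 →ₐ[ℂ] R2} (h : Good I ψ) : FF I := by
  have hinj : Function.Injective (Algebra.linearMap R2 (D4 ⧸ I)) := by
    rw [injective_iff_map_eq_zero]
    intro r hr
    rw [Algebra.linearMap_apply, algebraMap_mk, Ideal.Quotient.eq_zero_iff_mem, ← h.2, h.1] at hr
    exact hr
  have hsurj : Function.Surjective (Algebra.linearMap R2 (D4 ⧸ I)) := by
    intro y
    obtain ⟨x, rfl⟩ := Ideal.Quotient.mk_surjective y
    refine ⟨ψ x, ?_⟩
    rw [Algebra.linearMap_apply, algebraMap_mk, Ideal.Quotient.eq, ← h.2, map_sub, h.1, sub_self]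
  exact ⟨Module.Finite.of_surjective _ hsurj,
    Module.Free.of_equiv (LinearEquiv.ofBijective (Algebra.linearMap R2 (D4 ⧸ I)) ⟨hinj, hsurj⟩)⟩

/-- Gluing along an ideal `(a)`. -/
lemma glue {I J : Ideal D4} {ψ : D4 →ₐ[ℂ] R2} (h : Good J ψ) (hI : FF I) (a : D4) (ha : a ∈ I)
    (ha0 : ψ a ≠ 0) (hdiv : ∀ x ∈ I, ψ a ∣ ψ x) : FF (I ⊓ J) := by
  obtain ⟨hI1, hI2⟩ := hI
  let f : R2 →ₗ[R2] D4 ⧸ (I ⊓ J) := LinearMap.toSpanSingleton R2 _ (Ideal.Quotient.mk (I ⊓ J) a)
  let g : D4 ⧸ (I ⊓ J) →ₗ[R2] D4 ⧸ I :=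
    (Ideal.Quotient.factorₐ R2 (inf_le_left : I ⊓ J ≤ I)).toLinearMap
  have hf : Function.Injective f := by
    rw [injective_iff_map_eq_zero]
    intro r hr
    change r • (Ideal.Quotient.mk (I ⊓ J) a) = 0 at hr
    rw [smul_mk, Ideal.Quotient.eq_zero_iff_mem] at hr
    have h1 := (h.2 _).2 hr.2
    rw [map_mul, h.1] at h1
    exact (mul_eq_zero.1 h1).resolve_right ha0
  have hg : Function.Surjective g := by
    intro y
    obtain ⟨x, rfl⟩ := Ideal.Quotient.mk_surjective y
    exact ⟨Ideal.Quotient.mk (I ⊓ J) x, rfl⟩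
  have hfg : Function.Exact f g := by
    intro y
    constructor
    · intro hy
      obtain ⟨x, rfl⟩ := Ideal.Quotient.mk_surjective y
      have hx : x ∈ I := by
        change Ideal.Quotient.mk I x = 0 at hy
        rwa [Ideal.Quotient.eq_zero_iff_mem] at hy
      obtain ⟨r, hr⟩ := hdiv x hx
      refine ⟨r, ?_⟩
      change r • (Ideal.Quotient.mk (I ⊓ J) a) = _
      rw [smul_mk, Ideal.Quotient.eq]
      refine ⟨I.sub_mem (I.mul_mem_left _ ha) hx, ?_⟩
      rw [SetLike.mem_coe, ← h.2, map_sub, map_mul, h.1, hr, mul_comm, sub_self]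
    · rintro ⟨r, rfl⟩
      change Ideal.Quotient.mk I (phi r * a) = 0
      rw [Ideal.Quotient.eq_zero_iff_mem]
      exact I.mul_mem_left _ ha
  obtain ⟨l, hl⟩ := Module.projective_lifting_property g LinearMap.id hg
  let e := (hfg.splitSurjectiveEquiv hf ⟨l, hl⟩).1
  exact ⟨Module.Finite.equiv e.symm, Module.Free.of_equiv e.symm⟩

lemma good_of (F : Finset (Fin 4)) (v : Fin 4 → R2) (h1 : ∀ i, i ∉ F → v i = 0)
    (h2 : v 1 + v 2 = MvPolynomial.X 0) (h3 : v 0 + v 1 + v 3 = MvPolynomial.X 1)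
    (h4 : ∀ i, MvPolynomial.X i - phi (v i) ∈ pI F) :
    Good (pI F) (MvPolynomial.aeval v) := by
  have ha : ∀ r, (MvPolynomial.aeval v : D4 →ₐ[ℂ] R2) (phi r) = r := by
    intro r
    have : ((MvPolynomial.aeval v : D4 →ₐ[ℂ] R2).comp phi) = AlgHom.id ℂ R2 := by
      apply MvPolynomial.algHom_ext
      intro i
      fin_cases i
      · simp [phi, h2]
      · simp [phi, h3]
    exact congrArg (fun f : R2 →ₐ[ℂ] R2 => f r) this
  refine ⟨ha, fun x => ⟨fun hx => ?_, fun hx => ?_⟩⟩
  · have key : (((Ideal.Quotient.mkₐ ℂ (pI F)).comp phi).comp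
        (MvPolynomial.aeval v : D4 →ₐ[ℂ] R2)) = Ideal.Quotient.mkₐ ℂ (pI F) := by
      apply MvPolynomial.algHom_ext
      intro i
      simp only [AlgHom.comp_apply, MvPolynomial.aeval_X, Ideal.Quotient.mkₐ_eq_mk]
      rw [eq_comm, Ideal.Quotient.eq]
      exact h4 i
    have := congrArg (fun f : D4 →ₐ[ℂ] (D4 ⧸ pI F) => f x) key
    simp only [AlgHom.comp_apply, Ideal.Quotient.mkₐ_eq_mk, hx, map_zero] at this
    exact Ideal.Quotient.eq_zero_iff_mem.1 this.symm
  · have hle : pI F ≤ RingHom.ker (MvPolynomial.aeval v : D4 →ₐ[ℂ] R2) := by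
      rw [pI, Ideal.span_le]
      rintro _ ⟨i, hi, rfl⟩
      rw [SetLike.mem_coe, RingHom.mem_ker, MvPolynomial.aeval_X]
      exact h1 i hi
    exact hle hx

lemma X_mem_pI {F : Finset (Fin 4)} {i : Fin 4} (h : i ∉ F) :
    (MvPolynomial.X i : D4) ∈ pI F :=
  Ideal.subset_span ⟨i, h, rfl⟩

/-- The parametrization of the plane `01`. -/
def v01 : Fin 4 → R2 := ![MvPolynomial.X 1 - MvPolynomial.X 0, MvPolynomial.X 0, 0, 0]

/-- The parametrization of the plane `12`. -/
def v12 : Fin 4 → R2 := ![0, MvPolynomial.X 1, MvPolynomial.X 0 - MvPolynomial.X 1, 0]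

/-- The parametrization of the plane `23`. -/
def v23 : Fin 4 → R2 := ![0, 0, MvPolynomial.X 0, MvPolynomial.X 1]

lemma good01 : Good (pI {0, 1}) (MvPolynomial.aeval v01) := by
  apply good_of
  · intro i hi
    fin_cases i <;> simp_all [v01]
  · simp [v01]
  · simp [v01]
  · intro i
    fin_cases i
    · have : (MvPolynomial.X 0 - phi (v01 0) : D4) = MvPolynomial.X 2 - MvPolynomial.X 3 := by
        simp only [v01, Matrix.cons_val_zero, map_sub, phi_zero, phi_one]
        ring
      change (MvPolynomial.X 0 - phi (v01 0) : D4) ∈ _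
      rw [this]
      exact Ideal.sub_mem _ (X_mem_pI (by decide)) (X_mem_pI (by decide))
    · have : (MvPolynomial.X 1 - phi (v01 1) : D4) = - MvPolynomial.X 2 := by
        simp only [v01, Matrix.cons_val_one, Matrix.cons_val_zero, phi_zero]
        ring
      change (MvPolynomial.X 1 - phi (v01 1) : D4) ∈ _
      rw [this]
      exact (Ideal.neg_mem_iff _).2 (X_mem_pI (by decide))
    · change (MvPolynomial.X 2 - phi 0 : D4) ∈ _
      rw [map_zero, sub_zero]
      exact X_mem_pI (by decide)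
    · change (MvPolynomial.X 3 - phi 0 : D4) ∈ _
      rw [map_zero, sub_zero]
      exact X_mem_pI (by decide)

lemma good12 : Good (pI {1, 2}) (MvPolynomial.aeval v12) := by
  apply good_of
  · intro i hi
    fin_cases i <;> simp_all [v12]
  · simp [v12]
  · simp [v12]
  · intro i
    fin_cases i
    · change (MvPolynomial.X 0 - phi 0 : D4) ∈ _
      rw [map_zero, sub_zero]
      exact X_mem_pI (by decide)
    · change (MvPolynomial.X 1 - phi (MvPolynomial.X 1) : D4) ∈ _
      have : (MvPolynomial.X 1 - phi (MvPolynomial.X 1) : D4)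
          = - (MvPolynomial.X 0 + MvPolynomial.X 3) := by
        rw [phi_one]
        ring
      rw [this]
      exact (Ideal.neg_mem_iff _).2 (Ideal.add_mem _ (X_mem_pI (by decide)) (X_mem_pI (by decide)))
    · change (MvPolynomial.X 2 - phi (MvPolynomial.X 0 - MvPolynomial.X 1) : D4) ∈ _
      have : (MvPolynomial.X 2 - phi (MvPolynomial.X 0 - MvPolynomial.X 1) : D4)
          = MvPolynomial.X 0 + MvPolynomial.X 3 := by
        rw [map_sub, phi_zero, phi_one]
        ring
      rw [this]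
      exact Ideal.add_mem _ (X_mem_pI (by decide)) (X_mem_pI (by decide))
    · change (MvPolynomial.X 3 - phi 0 : D4) ∈ _
      rw [map_zero, sub_zero]
      exact X_mem_pI (by decide)

lemma good23 : Good (pI {2, 3}) (MvPolynomial.aeval v23) := by
  apply good_of
  · intro i hi
    fin_cases i <;> simp_all [v23]
  · simp [v23]
  · simp [v23]
  · intro i
    fin_cases i
    · change (MvPolynomial.X 0 - phi 0 : D4) ∈ _
      rw [map_zero, sub_zero]
      exact X_mem_pI (by decide)
    · change (MvPolynomial.X 1 - phi 0 : D4) ∈ _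
      rw [map_zero, sub_zero]
      exact X_mem_pI (by decide)
    · change (MvPolynomial.X 2 - phi (MvPolynomial.X 0) : D4) ∈ _
      have : (MvPolynomial.X 2 - phi (MvPolynomial.X 0) : D4) = - MvPolynomial.X 1 := by
        rw [phi_zero]
        ring
      rw [this]
      exact (Ideal.neg_mem_iff _).2 (X_mem_pI (by decide))
    · change (MvPolynomial.X 3 - phi (MvPolynomial.X 1) : D4) ∈ _
      have : (MvPolynomial.X 3 - phi (MvPolynomial.X 1) : D4)
          = - (MvPolynomial.X 0 + MvPolynomial.X 1) := by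
        rw [phi_one]
        ring
      rw [this]
      exact (Ideal.neg_mem_iff _).2 (Ideal.add_mem _ (X_mem_pI (by decide)) (X_mem_pI (by decide)))

lemma div_of_pI {F : Finset (Fin 4)} {v : Fin 4 → R2} {b : R2}
    (h : ∀ i, i ∉ F → b ∣ v i) {x : D4} (hx : x ∈ pI F) :
    b ∣ (MvPolynomial.aeval v : D4 →ₐ[ℂ] R2) x := by
  have hle : pI F ≤ (Ideal.span {b}).comap (MvPolynomial.aeval v : D4 →ₐ[ℂ] R2) := by
    rw [pI, Ideal.span_le]
    rintro _ ⟨i, hi, rfl⟩
    rw [SetLike.mem_coe, Ideal.mem_comap, MvPolynomial.aeval_X, Ideal.mem_span_singleton]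
    exact h i hi
  have := hle hx
  rwa [Ideal.mem_comap, Ideal.mem_span_singleton] at this

lemma X01_ne : (MvPolynomial.X 0 - MvPolynomial.X 1 : R2) ≠ 0 := by
  intro h
  have := congrArg (MvPolynomial.eval (![1, 0] : Fin 2 → ℂ)) h
  simp at this

/-- First gluing: `01 ∪ 12`. -/
lemma ff0112 : FF (pI {0, 1} ⊓ pI {1, 2}) := by
  refine glue good12 good01.ff (MvPolynomial.X 2) (X_mem_pI (by decide)) ?_ ?_
  · rw [MvPolynomial.aeval_X]
    exact X01_ne
  · intro x hx
    refine div_of_pI ?_ hx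
    intro i hi
    rw [MvPolynomial.aeval_X]
    fin_cases i
    · simp at hi
    · simp at hi
    · exact dvd_refl _
    · exact dvd_zero _

/-- Second gluing: attach `23` to `I ⊆ pI 12`. -/
lemma ff_glue23 {I : Ideal D4} (hI : FF I) (hle : I ≤ pI {1, 2}) (h3 : MvPolynomial.X 3 ∈ I) :
    FF (I ⊓ pI {2, 3}) := by
  refine glue good23 hI (MvPolynomial.X 3) h3 ?_ ?_
  · rw [MvPolynomial.aeval_X]
    exact MvPolynomial.X_ne_zero _
  · intro x hx
    refine div_of_pI ?_ (hle hx)
    intro i hi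
    rw [MvPolynomial.aeval_X]
    fin_cases i
    · exact dvd_zero _
    · simp at hi
    · simp at hi
    · exact dvd_refl _

lemma ff_top : FF ⊤ := by
  have : Subsingleton (D4 ⧸ (⊤ : Ideal D4)) := Ideal.Quotient.subsingleton_iff.2 rfl
  exact ⟨inferInstance, inferInstance⟩

lemma cases_T (T : Finset (Fin 4)) :
    S3.filter (T ⊆ ·) = ∅ ∨ S3.filter (T ⊆ ·) = {{0, 1}} ∨ S3.filter (T ⊆ ·) = {{1, 2}} ∨
    S3.filter (T ⊆ ·) = {{2, 3}} ∨ S3.filter (T ⊆ ·) = {{0, 1}, {1, 2}} ∨
    S3.filter (T ⊆ ·) = {{1, 2}, {2, 3}} ∨ S3.filter (T ⊆ ·) = {{0, 1}, {1, 2}, {2, 3}} := by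
  revert T
  decide

lemma ff_JT (T : Finset (Fin 4)) : FF (JT T) := by
  unfold JT
  rcases cases_T T with h | h | h | h | h | h | h
  · rw [h]
    simpa using ff_top
  · rw [h]
    simpa using good01.ff
  · rw [h]
    simpa using good12.ff
  · rw [h]
    simpa using good23.ff
  · rw [h]
    have : (⨅ F ∈ ({{0, 1}, {1, 2}} : Finset (Finset (Fin 4))), pI F)
        = pI {0, 1} ⊓ pI {1, 2} := by
      rw [Finset.iInf_insert, Finset.iInf_singleton]
    rw [this]
    exact ff0112
  · rw [h]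
    have : (⨅ F ∈ ({{1, 2}, {2, 3}} : Finset (Finset (Fin 4))), pI F)
        = pI {1, 2} ⊓ pI {2, 3} := by
      rw [Finset.iInf_insert, Finset.iInf_singleton]
    rw [this]
    exact ff_glue23 good12.ff le_rfl (X_mem_pI (by decide))
  · rw [h]
    have : (⨅ F ∈ ({{0, 1}, {1, 2}, {2, 3}} : Finset (Finset (Fin 4))), pI F)
        = (pI {0, 1} ⊓ pI {1, 2}) ⊓ pI {2, 3} := by
      rw [Finset.iInf_insert, Finset.iInf_insert, Finset.iInf_singleton, inf_assoc]
    rw [this]
    exact ff_glue23 ff0112 inf_le_right ⟨X_mem_pI (by decide), X_mem_pI (by decide)⟩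

lemma dim_R2 : ringKrullDim R2 ≤ 2 := by
  rw [MvPolynomial.ringKrullDim_of_isNoetherianRing, ringKrullDim_eq_zero_of_field]
  simp

/-- **Job CMALG.** All local rings of `ℂ[t]/J_T` are Cohen-Macaulay. -/
theorem t_CMALG : S_CMALG := by
  intro T q hq
  obtain ⟨h1, h2⟩ := ff_JT T
  exact isCM_of_flat_finite (R := R2) dim_R2 q

end Pool.Agent.J4H41.SV
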